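import Pool.Agent.W734.TWB.Stms

/-!
# TWB-TRIP
-/
set_option autoImplicit false

noncomputable section

namespace Pool.Agent.W152.TWB

open MeasureTheory Set Filter Metric Pool.Agent.W734.TWB

variable {n : ℕ}

theorem norm_le_two {z : E3} (h : ∀ a, z a ∈ Ico (0 : ℝ) 1) : ‖z‖ ≤ 2 := by
  rw [EuclideanSpace.norm_eq, Real.sqrt_le_left (by norm_num), Fin.sum_univ_three]
  have h0 := h 0
  have h1 := h 1
  have h2 := h 2
  simp only [Real.norm_eq_abs, sq_abs]
  obtain ⟨a0, b0⟩ := h0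
  obtain ⟨a1, b1⟩ := h1
  obtain ⟨a2, b2⟩ := h2
  nlinarith

theorem box_bdd : Bornology.IsBounded (box 0 1 n) := by
  rw [isBounded_iff_forall_norm_le]
  refine ⟨2, fun x hx => ?_⟩
  rw [pi_norm_le_iff_of_nonneg (by norm_num)]
  intro i
  apply norm_le_two
  intro a
  simpa using hx i a

/-- bounded measurable times continuous on a bounded set -/
theorem intOn {X : Type*} [NormedAddCommGroup X] [ProperSpace X] [MeasurableSpace X]
    [BorelSpace X] {μ : Measure X} [IsFiniteMeasureOnCompacts μ] {S : Set X}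
    (hS : Bornology.IsBounded S) {q w : X → ℝ} (hq : Continuous q)
    (hw : Measurable w) {M : ℝ} (hM : ∀ x, |w x| ≤ M) (hSm : MeasurableSet S) :
    IntegrableOn (fun x => w x * q x) S μ := by
  obtain ⟨C, hC⟩ := (hS.isCompact_closure).exists_bound_of_continuousOn hq.continuousOn
  refine Measure.integrableOn_of_bounded (M := M * C) ?_ ?_ ?_
  · exact hS.measure_lt_top.ne
  · exact (hw.mul hq.measurable).aestronglyMeasurable
  · refine (ae_restrict_iff' hSm).2 (Eventually.of_forall fun x hx => ?_)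
    rw [norm_mul]
    have h1 := hC x (subset_closure hx)
    have h2 : ‖w x‖ ≤ M := hM x
    exact mul_le_mul h2 h1 (norm_nonneg _) ((norm_nonneg _).trans h2)

theorem mcube (i : Fin n) (s t : ℝ) : MeasurableSet {x : Cfg n | ∀ a, x i a ∈ Ico s t} := by
  simp only [ofPred_forall]
  refine MeasurableSet.iInter fun a => ?_
  have h : Continuous (fun x : Cfg n => x i a) := by fun_prop
  exact h.measurable measurableSet_Ico

theorem mfar (i l : Fin n) (s : ℝ) : MeasurableSet {x : Cfg n | s ≤ ‖x l - x i‖} := by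
  have h : Continuous (fun x : Cfg n => ‖x l - x i‖) := by fun_prop
  exact (isClosed_le continuous_const h).measurableSet

theorem mgoodT (τ : ℝ) (i j k : Fin n) : MeasurableSet (goodT (n := n) τ i j k) := by
  unfold goodT
  have e : {x : Cfg n | (∀ a, x i a ∈ Set.Ico τ (1 - τ)) ∧ (∀ a, x j a ∈ Set.Ico (0 : ℝ) 1) ∧
    (∀ a, x k a ∈ Set.Ico (0 : ℝ) 1) ∧
    ∀ l, l ≠ i → l ≠ j → l ≠ k → (∀ a, x l a ∈ Set.Ico (0 : ℝ) 1) ∧ 2 * τ ≤ ‖x l - x i‖}
    = {x : Cfg n | ∀ a, x i a ∈ Set.Ico τ (1 - τ)} ∩ ({x : Cfg n | ∀ a, x j a ∈ Set.Ico (0 : ℝ) 1} ∩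
      ({x : Cfg n | ∀ a, x k a ∈ Set.Ico (0 : ℝ) 1} ∩ ⋂ l, ⋂ (_ : l ≠ i), ⋂ (_ : l ≠ j),
        ⋂ (_ : l ≠ k), ({x : Cfg n | ∀ a, x l a ∈ Set.Ico (0 : ℝ) 1} ∩
          {x : Cfg n | 2 * τ ≤ ‖x l - x i‖}))) := by
    ext x
    simp only [mem_inter_iff, mem_iInter, mem_ofPred_eq]
  rw [e]
  refine (mcube _ _ _).inter ((mcube _ _ _).inter ((mcube _ _ _).inter ?_))
  exact MeasurableSet.iInter fun l => MeasurableSet.iInter fun _ => MeasurableSet.iInter fun _ =>
    MeasurableSet.iInter fun _ => (mcube _ _ _).inter (mfar _ _ _)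

theorem goodT_box {τ : ℝ} (hτ : 0 < τ) (i j k : Fin n) : goodT (n := n) τ i j k ⊆ box 0 1 n := by
  rintro x ⟨h1, h2, h3, h4⟩ l a
  simp only [PiLp.zero_apply, zero_add]
  by_cases hi : l = i
  · subst hi
    have := h1 a
    exact ⟨by linarith [this.1], by linarith [this.2]⟩
  · by_cases hj : l = j
    · subst hj; exact h2 a
    · by_cases hk : l = k
      · subst hk; exact h3 a
      · exact (h4 l hi hj hk).1 a

/-- the direction map -/
def Lam (i j k : Fin n) : E3 × E3 →L[ℝ] Cfg n :=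
  ContinuousLinearMap.pi (fun l => if l = k then
      (1 / 3 : ℝ) • (ContinuousLinearMap.fst ℝ E3 E3 - (2 : ℝ) • ContinuousLinearMap.snd ℝ E3 E3)
    else if l = j then
      (1 / 3 : ℝ) • (ContinuousLinearMap.snd ℝ E3 E3 - (2 : ℝ) • ContinuousLinearMap.fst ℝ E3 E3)
    else if l = i then
      (1 / 3 : ℝ) • (ContinuousLinearMap.fst ℝ E3 E3 + ContinuousLinearMap.snd ℝ E3 E3)
    else 0)

/-- base point -/
def P0 (i j k : Fin n) (x : Cfg n) : Cfg n := Function.update (Function.update x j (x i)) k (x i)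

/-- the update -/
def UU3 (j k : Fin n) (x : Cfg n) (p : E3 × E3) : Cfg n :=
  Function.update (Function.update x j p.1) k p.2

theorem T3_eq {i j k : Fin n} (hij : i ≠ j) (hik : i ≠ k) (hjk : j ≠ k) (x : Cfg n)
    (p : E3 × E3) : T3 i j k (UU3 j k x p) = P0 i j k x + Lam i j k p := by
  funext l
  unfold T3 UU3 P0 Lam
  by_cases hk : l = k
  · subst hk
    simp [Function.update_of_ne hik, Function.update_of_ne hij, Function.update_of_ne hjk]
  · by_cases hj : l = j
    · subst hj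
      simp [Function.update_of_ne hik, Function.update_of_ne hij, hk]
    · by_cases hi : l = i
      · subst hi
        simp [Function.update_of_ne hjk, hk, hj]
      · simp [hk, hj, hi]

theorem T3_i {i j k : Fin n} (hij : i ≠ j) (hik : i ≠ k) (hjk : j ≠ k) (x : Cfg n)
    (p : E3 × E3) : T3 i j k (UU3 j k x p) i = x i + (1 / 3 : ℝ) • (p.1 + p.2) := by
  rw [T3_eq hij hik hjk]
  simp [P0, Lam, hij, hik]

theorem T3_j {i j k : Fin n} (hij : i ≠ j) (hik : i ≠ k) (hjk : j ≠ k) (x : Cfg n)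
    (p : E3 × E3) : T3 i j k (UU3 j k x p) j = x i + (1 / 3 : ℝ) • (p.2 - (2 : ℝ) • p.1) := by
  rw [T3_eq hij hik hjk]
  simp [P0, Lam, hjk]

theorem T3_k {i j k : Fin n} (hij : i ≠ j) (hik : i ≠ k) (hjk : j ≠ k) (x : Cfg n)
    (p : E3 × E3) : T3 i j k (UU3 j k x p) k = x i + (1 / 3 : ℝ) • (p.1 - (2 : ℝ) • p.2) := by
  rw [T3_eq hij hik hjk]
  simp [P0, Lam]

theorem T3_l {i j k l : Fin n} (hij : i ≠ j) (hik : i ≠ k) (hjk : j ≠ k) (hi : l ≠ i)
    (hj : l ≠ j) (hk : l ≠ k) (x : Cfg n)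
    (p : E3 × E3) : T3 i j k (UU3 j k x p) l = x l := by
  rw [T3_eq hij hik hjk]
  simp [P0, Lam, hi, hj, hk]

theorem T3_ij {i j k : Fin n} (hij : i ≠ j) (hik : i ≠ k) (hjk : j ≠ k) (x : Cfg n)
    (p : E3 × E3) : T3 i j k (UU3 j k x p) i - T3 i j k (UU3 j k x p) j = p.1 := by
  rw [T3_i hij hik hjk, T3_j hij hik hjk]
  module

theorem T3_ik {i j k : Fin n} (hij : i ≠ j) (hik : i ≠ k) (hjk : j ≠ k) (x : Cfg n)
    (p : E3 × E3) : T3 i j k (UU3 j k x p) i - T3 i j k (UU3 j k x p) k = p.2 := by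
  rw [T3_i hij hik hjk, T3_k hij hik hjk]
  module

theorem T3_c {i j k : Fin n} (hij : i ≠ j) (hik : i ≠ k) (hjk : j ≠ k) (x : Cfg n)
    (p : E3 × E3) : (1 / 3 : ℝ) • (T3 i j k (UU3 j k x p) i + T3 i j k (UU3 j k x p) j
      + T3 i j k (UU3 j k x p) k) = x i := by
  rw [T3_i hij hik hjk, T3_j hij hik hjk, T3_k hij hik hjk]
  module

theorem mem_trip {τ ρ : ℝ} {i j k : Fin n} (hij : i ≠ j) (hik : i ≠ k) (hjk : j ≠ k) {x : Cfg n}
    (hx : x ∈ goodT τ i j k) (p : E3 × E3) :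
    T3 i j k (UU3 j k x p) ∈ tripReg τ ρ i j k ↔ p ∈ ball (0 : E3 × E3) ρ := by
  obtain ⟨h1, h2, h3, h4⟩ := hx
  unfold tripReg
  rw [mem_ofPred_eq, T3_ij hij hik hjk, T3_ik hij hik hjk, T3_c hij hik hjk]
  constructor
  · rintro ⟨_, h, _⟩
    exact h
  · intro h
    refine ⟨h1, h, ?_⟩
    intro l hi hj hk
    rw [T3_l hij hik hjk hi hj hk]
    exact h4 l hi hj hk

theorem Lam_e0 {i j k : Fin n} (hij : i ≠ j) (hik : i ≠ k) (hjk : j ≠ k) (e : E3) :
    Lam i j k (e, 0) = (1 / 3 : ℝ) • (Pi.single i e : Cfg n) + (-(2 / 3) : ℝ) • (Pi.single j e : Cfg n)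
      + (1 / 3 : ℝ) • (Pi.single k e : Cfg n) := by
  funext l
  by_cases hk : l = k
  · subst hk
    simp [Lam, Pi.single_eq_of_ne (Ne.symm hik), Pi.single_eq_of_ne (Ne.symm hjk)]
  · by_cases hj : l = j
    · subst hj
      simp [Lam, hk, Pi.single_eq_of_ne (Ne.symm hij)]
      module
    · by_cases hi : l = i
      · subst hi
        simp [Lam, hk, hj]
      · simp [Lam, hk, hj, hi]

theorem Lam_0e {i j k : Fin n} (hij : i ≠ j) (hik : i ≠ k) (hjk : j ≠ k) (e : E3) :
    Lam i j k (0, e) = (1 / 3 : ℝ) • (Pi.single i e : Cfg n) + (1 / 3 : ℝ) • (Pi.single j e : Cfg n)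
      + (-(2 / 3) : ℝ) • (Pi.single k e : Cfg n) := by
  funext l
  by_cases hk : l = k
  · subst hk
    simp [Lam, Pi.single_eq_of_ne (Ne.symm hik), Pi.single_eq_of_ne (Ne.symm hjk)]
    module
  · by_cases hj : l = j
    · subst hj
      simp [Lam, hk, Pi.single_eq_of_ne (Ne.symm hij)]
    · by_cases hi : l = i
      · subst hi
        simp [Lam, hk, hj]
      · simp [Lam, hk, hj, hi]

theorem Lam_ee {i j k : Fin n} (hij : i ≠ j) (hik : i ≠ k) (hjk : j ≠ k) (e : E3) :
    Lam i j k (e, e) = (2 / 3 : ℝ) • (Pi.single i e : Cfg n) + (-(1 / 3) : ℝ) • (Pi.single j e : Cfg n)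
      + (-(1 / 3) : ℝ) • (Pi.single k e : Cfg n) := by
  have h : ((e, e) : E3 × E3) = (e, 0) + (0, e) := by simp
  rw [h, map_add, Lam_e0 hij hik hjk, Lam_0e hij hik hjk]
  module

theorem three (a b c : ℂ) : ‖(1 / 3 : ℝ) • a + (-(2 / 3) : ℝ) • b + (1 / 3 : ℝ) • c‖ ^ 2
    + ‖(1 / 3 : ℝ) • a + (1 / 3 : ℝ) • b + (-(2 / 3) : ℝ) • c‖ ^ 2
    + ‖(2 / 3 : ℝ) • a + (-(1 / 3) : ℝ) • b + (-(1 / 3) : ℝ) • c‖ ^ 2
    ≤ ‖a‖ ^ 2 + ‖b‖ ^ 2 + ‖c‖ ^ 2 := by
  simp only [Complex.sq_norm, Complex.normSq_apply, Complex.add_re, Complex.add_im,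
    Complex.real_smul, Complex.mul_re, Complex.mul_im, Complex.ofReal_re, Complex.ofReal_im]
  nlinarith [sq_nonneg (a.re + b.re + c.re), sq_nonneg (a.im + b.im + c.im)]

theorem g6_le {i j k : Fin n} (hij : i ≠ j) (hik : i ≠ k) (hjk : j ≠ k) {F : Cfg n → ℂ}
    (hF : ContDiff ℝ 1 F) (x : Cfg n) (p : E3 × E3) :
    g6 (fun p => F (T3 i j k (UU3 j k x p))) p ≤
      gsq F i (T3 i j k (UU3 j k x p)) + gsq F j (T3 i j k (UU3 j k x p))
        + gsq F k (T3 i j k (UU3 j k x p)) := by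
  have hfd : ∀ u : E3 × E3, fderiv ℝ (fun p => F (T3 i j k (UU3 j k x p))) p u
      = fderiv ℝ F (T3 i j k (UU3 j k x p)) (Lam i j k u) := by
    intro u
    have h1 : (fun p => F (T3 i j k (UU3 j k x p))) = F ∘ (fun p => P0 i j k x + Lam i j k p) := by
      funext p
      rw [T3_eq hij hik hjk]
      rfl
    have h2 : HasFDerivAt (fun p => P0 i j k x + Lam i j k p) (Lam i j k) p :=
      (Lam i j k).hasFDerivAt.const_add _
    have h3 : HasFDerivAt F (fderiv ℝ F (P0 i j k x + Lam i j k p)) (P0 i j k x + Lam i j k p) :=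
      (hF.differentiable (by norm_num)).differentiableAt.hasFDerivAt
    rw [h1, (h3.comp p h2).fderiv, T3_eq hij hik hjk]
    rfl
  unfold g6 gsq
  rw [← Finset.sum_add_distrib, ← Finset.sum_add_distrib]
  apply Finset.sum_le_sum
  intro m _
  rw [hfd, hfd, hfd, Lam_e0 hij hik hjk, Lam_0e hij hik hjk, Lam_ee hij hik hjk]
  simp only [map_add, map_smul]
  exact three _ _ _

theorem continuous_gsq {F : Cfg n → ℂ} (hF : ContDiff ℝ 1 F) (i : Fin n) :
    Continuous (gsq F i) := by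
  unfold gsq
  refine continuous_finsetSum _ fun k _ => ?_
  have h := hF.continuous_fderiv (by norm_num)
  exact ((h.clm_apply continuous_const).norm).pow 2

theorem continuous_g6 {G : E3 × E3 → ℂ} (hG : ContDiff ℝ 1 G) : Continuous (g6 G) := by
  unfold g6
  refine continuous_finsetSum _ fun k _ => ?_
  have h := hG.continuous_fderiv (by norm_num)
  exact ((((h.clm_apply continuous_const).norm).pow 2).add
    (((h.clm_apply continuous_const).norm).pow 2)).add (((h.clm_apply continuous_const).norm).pow 2)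

theorem gsq_nonneg (F : Cfg n → ℂ) (i : Fin n) (x : Cfg n) : 0 ≤ gsq F i x :=
  Finset.sum_nonneg fun _ _ => by positivity

/-- the integrand, first part -/
def f1 (v : E3 × E3 → ℝ) (i j k : Fin n) (F : Cfg n → ℂ) (x : Cfg n) : ℝ :=
  gsq F i x + gsq F j x + gsq F k x + v (x i - x j, x i - x k) * ‖F x‖ ^ 2

/-- the integrand, second part -/
def f2 (i j : Fin n) (F : Cfg n → ℂ) (c : ℂ) (x : Cfg n) : ℝ := ‖F x - c‖ ^ 2 / ‖x i - x j‖ ^ 2

theorem int_f1 {v : E3 × E3 → ℝ} (hv : Measurable v) (hv0 : ∀ p, 0 ≤ v p) {M : ℝ}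
    (hM : ∀ p, v p ≤ M) (i j k : Fin n) {F : Cfg n → ℂ} (hF : ContDiff ℝ 1 F) {S : Set (Cfg n)}
    (hS : Bornology.IsBounded S) (hSm : MeasurableSet S) : IntegrableOn (f1 v i j k F) S := by
  have h1 : IntegrableOn (fun x => (1 : ℝ) * (gsq F i x + gsq F j x + gsq F k x)) S :=
    intOn hS (((continuous_gsq hF i).add (continuous_gsq hF j)).add (continuous_gsq hF k))
      measurable_const (M := 1) (by simp) hSm
  have hc : Continuous (fun x : Cfg n => (x i - x j, x i - x k)) := by fun_prop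
  have h2 : IntegrableOn (fun x => v (x i - x j, x i - x k) * ‖F x‖ ^ 2) S :=
    intOn (w := fun x : Cfg n => v (x i - x j, x i - x k)) hS ((hF.continuous.norm).pow 2)
      (hv.comp hc.measurable) (M := M) (fun x => by rw [abs_of_nonneg (hv0 _)]; exact hM _) hSm
  have h3 := h1.add h2
  refine h3.congr (Eventually.of_forall fun x => ?_)
  simp [f1]

/-- the fibre inequality -/
theorem fibre (hI : S_INV) {v : E3 × E3 → ℝ} (hv : Measurable v) (hv0 : ∀ p, 0 ≤ v p) {M : ℝ}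
    (hM : ∀ p, v p ≤ M) {A δ ρ : ℝ}
    (H : ∀ G : E3 × E3 → ℂ, ContDiff ℝ 1 G → ∀ c : ℂ, A * ‖c‖ ^ 2 ≤
      (∫ p in ball (0 : E3 × E3) ρ, (g6 G p + v p * ‖G p‖ ^ 2))
      + δ * ∫ p in ball (0 : E3 × E3) ρ, ‖G p - c‖ ^ 2 / ‖p.1‖ ^ 2)
    {i j k : Fin n} (hij : i ≠ j) (hik : i ≠ k) (hjk : j ≠ k) {F : Cfg n → ℂ}
    (hF : ContDiff ℝ 1 F) (c : ℂ) (x : Cfg n) :
    A * ‖c‖ ^ 2 ≤ ∫ p in ball (0 : E3 × E3) ρ,
      (f1 v i j k F (T3 i j k (UU3 j k x p)) + δ * f2 i j F c (T3 i j k (UU3 j k x p))) := by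
  have hT : (fun p => T3 i j k (UU3 j k x p)) = fun p => P0 i j k x + Lam i j k p := by
    funext p
    rw [T3_eq hij hik hjk]
  have hTc : Continuous (fun p => T3 i j k (UU3 j k x p)) := by
    rw [hT]
    fun_prop
  have hG : ContDiff ℝ 1 (fun p => F (T3 i j k (UU3 j k x p))) := by
    have h1 : (fun p => F (T3 i j k (UU3 j k x p))) = F ∘ (fun p => P0 i j k x + Lam i j k p) := by
      funext p
      rw [T3_eq hij hik hjk]
      rfl
    rw [h1]
    exact hF.comp (contDiff_const.add (Lam i j k).contDiff)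
  refine (H _ hG c).trans ?_
  have hb : Bornology.IsBounded (ball (0 : E3 × E3) ρ) := isBounded_ball
  have hbm : MeasurableSet (ball (0 : E3 × E3) ρ) := isOpen_ball.measurableSet
  -- integrability on the fibre
  have i1 : IntegrableOn (fun p => g6 (fun p => F (T3 i j k (UU3 j k x p))) p
      + v p * ‖F (T3 i j k (UU3 j k x p))‖ ^ 2) (ball (0 : E3 × E3) ρ) := by
    have h1 : IntegrableOn (fun p => (1 : ℝ) * g6 (fun p => F (T3 i j k (UU3 j k x p))) p)
        (ball (0 : E3 × E3) ρ) :=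
      intOn hb (continuous_g6 hG) measurable_const (M := 1) (by simp) hbm
    have h2 : IntegrableOn (fun p => v p * ‖F (T3 i j k (UU3 j k x p))‖ ^ 2)
        (ball (0 : E3 × E3) ρ) :=
      intOn hb ((hG.continuous.norm).pow 2) hv (M := M)
        (fun x => by rw [abs_of_nonneg (hv0 _)]; exact hM _) hbm
    refine (h1.add h2).congr (Eventually.of_forall fun x => ?_)
    simp
  have i2 : IntegrableOn (fun p => f1 v i j k F (T3 i j k (UU3 j k x p)))
      (ball (0 : E3 × E3) ρ) := by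
    have h1 : IntegrableOn (fun p => (1 : ℝ) * (gsq F i (T3 i j k (UU3 j k x p))
        + gsq F j (T3 i j k (UU3 j k x p)) + gsq F k (T3 i j k (UU3 j k x p))))
        (ball (0 : E3 × E3) ρ) :=
      intOn hb ((((continuous_gsq hF i).comp hTc).add ((continuous_gsq hF j).comp hTc)).add
        ((continuous_gsq hF k).comp hTc)) measurable_const (M := 1) (by simp) hbm
    have h2 : IntegrableOn (fun p => v p * ‖F (T3 i j k (UU3 j k x p))‖ ^ 2)
        (ball (0 : E3 × E3) ρ) :=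
      intOn hb ((hG.continuous.norm).pow 2) hv (M := M)
        (fun x => by rw [abs_of_nonneg (hv0 _)]; exact hM _) hbm
    refine (h1.add h2).congr (Eventually.of_forall fun p => ?_)
    simp only [Pi.add_apply, f1, T3_ij hij hik hjk, T3_ik hij hik hjk, one_mul]
  have i3 : IntegrableOn (fun p => f2 i j F c (T3 i j k (UU3 j k x p)))
      (ball (0 : E3 × E3) ρ) := by
    have hq : Continuous (fun p => ‖F (T3 i j k (UU3 j k x p)) - c‖ ^ 2) :=
      ((hG.continuous.sub continuous_const).norm).pow 2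
    obtain ⟨C, hC⟩ := (hb.isCompact_closure).exists_bound_of_continuousOn hq.continuousOn
    have h1 := (hI.2 ρ).const_mul C
    refine h1.mono' ?_ ?_
    · have : Measurable (fun p : E3 × E3 => ‖F (T3 i j k (UU3 j k x p)) - c‖ ^ 2 / ‖p.1‖ ^ 2) :=
        hq.measurable.div ((continuous_fst.norm.pow 2).measurable)
      refine this.aestronglyMeasurable.congr (Eventually.of_forall fun p => ?_)
      simp only [f2, T3_ij hij hik hjk]
    · refine (ae_restrict_iff' hbm).2 (Eventually.of_forall fun p hp => ?_)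
      simp only [f2, T3_ij hij hik hjk]
      have h2 := hC p (subset_closure hp)
      rw [Real.norm_eq_abs, abs_of_nonneg (by positivity)] at h2
      rw [Real.norm_eq_abs, abs_of_nonneg (by positivity), div_eq_mul_inv]
      exact mul_le_mul_of_nonneg_right h2 (by positivity)
  rw [integral_add i2 (i3.const_mul δ), integral_const_mul]
  have e1 : (∫ p in ball (0 : E3 × E3) ρ, ‖F (T3 i j k (UU3 j k x p)) - c‖ ^ 2 / ‖p.1‖ ^ 2)
      = ∫ p in ball (0 : E3 × E3) ρ, f2 i j F c (T3 i j k (UU3 j k x p)) := by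
    refine integral_congr_ae (Eventually.of_forall fun p => ?_)
    simp only [f2, T3_ij hij hik hjk]
  rw [e1]
  have e2 : (∫ p in ball (0 : E3 × E3) ρ, (g6 (fun p => F (T3 i j k (UU3 j k x p))) p
      + v p * ‖F (T3 i j k (UU3 j k x p))‖ ^ 2))
      ≤ ∫ p in ball (0 : E3 × E3) ρ, f1 v i j k F (T3 i j k (UU3 j k x p)) := by
    refine setIntegral_mono i1 i2 fun p => ?_
    have := g6_le hij hik hjk hF x p
    simp only [f1, T3_ij hij hik hjk, T3_ik hij hik hjk]
    linarith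
  linarith

theorem trip : S_INV → S_COV → S_FUB → S_H2 → S_REGS → S_TRIP := by
  intro hI hC hFub hH hR v hv hv0 ⟨M, hM⟩ A δ ρ hA hδ hρ H n τ hτ hρτ i j k hij hik hjk F hF c
  obtain ⟨_, hRt, _, _, hRsub, _⟩ := hR n τ (τ / 4) ρ hτ le_rfl hρτ
  have hTm := hRt i j k
  have hTn : tripReg (n := n) τ ρ i j k ⊆ nearD τ i j := hRsub i j k hij hik hjk
  have hTb : Bornology.IsBounded (tripReg (n := n) τ ρ i j k) :=
    box_bdd.subset (hTn.trans fun x hx => hx.1)
  obtain ⟨C, _, hHc⟩ := hH n τ hτ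
  have j1 : IntegrableOn (f1 v i j k F) (tripReg τ ρ i j k) := int_f1 hv hv0 hM i j k hF hTb hTm
  have j2 : IntegrableOn (f2 i j F c) (tripReg τ ρ i j k) := ((hHc i j hij F hF c).1).mono_set hTn
  have j3 : IntegrableOn (fun x => f1 v i j k F x + δ * f2 i j F c x) (tripReg τ ρ i j k) :=
    j1.add (j2.const_mul δ)
  have e0 : (∫ x in tripReg τ ρ i j k, (gsq F i x + gsq F j x + gsq F k x
        + v (x i - x j, x i - x k) * ‖F x‖ ^ 2))
      + δ * ∫ x in tripReg τ ρ i j k, ‖F x - c‖ ^ 2 / ‖x i - x j‖ ^ 2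
      = ∫ x, (tripReg τ ρ i j k).indicator (fun x => f1 v i j k F x + δ * f2 i j F c x) x := by
    rw [integral_indicator hTm, integral_add j1 (j2.const_mul δ), integral_const_mul]
    rfl
  rw [e0]
  set h : Cfg n → ℝ := (tripReg τ ρ i j k).indicator (fun x => f1 v i j k F x + δ * f2 i j F c x)
    with hh
  have hint : Integrable h := (integrable_indicator_iff hTm).2 j3
  have hnn : ∀ x, 0 ≤ h x := by
    intro x
    apply indicator_nonneg
    intro y _
    have h1 := gsq_nonneg F i y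
    have h2 := gsq_nonneg F j y
    have h3 := gsq_nonneg F k y
    have h4 := mul_nonneg (hv0 (y i - y j, y i - y k)) (sq_nonneg ‖F y‖)
    have h5 : 0 ≤ f2 i j F c y := by unfold f2; positivity
    have h6 := mul_nonneg hδ h5
    show 0 ≤ f1 v i j k F y + δ * f2 i j F c y
    unfold f1
    linarith
  obtain ⟨hmp, hinj⟩ := (hC n).2 i j k hij hik hjk
  have hcomp : Integrable (h ∘ T3 i j k) := (hmp.integrable_comp hint.aestronglyMeasurable).2 hint
  have e1 : ∫ x, h x = ∫ x, (h ∘ T3 i j k) x := by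
    conv_lhs => rw [← hmp.map_eq]
    rw [integral_map hmp.measurable.aemeasurable]
    · rfl
    · rw [hmp.map_eq]
      exact hint.aestronglyMeasurable
  obtain ⟨_, k2, k3⟩ := (hFub n (h ∘ T3 i j k) hcomp).2 j k hjk
  rw [e1, k3]
  -- the good set
  have hGm := mgoodT (n := n) τ i j k
  have hGb : Bornology.IsBounded (goodT (n := n) τ i j k) := box_bdd.subset (goodT_box hτ i j k)
  have hGs : goodT (n := n) τ i j k ⊆ {x | x j ∈ Q1 ∧ x k ∈ Q1} := fun x hx => ⟨hx.2.1, hx.2.2.1⟩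
  have e2 : A * ‖c‖ ^ 2 * (volume (goodT (n := n) τ i j k)).toReal
      = ∫ x in {x : Cfg n | x j ∈ Q1 ∧ x k ∈ Q1},
        (goodT (n := n) τ i j k).indicator (fun _ => A * ‖c‖ ^ 2) x := by
    rw [setIntegral_indicator hGm, inter_eq_self_of_subset_right hGs, setIntegral_const,
      smul_eq_mul, mul_comm]
    rfl
  rw [e2]
  refine setIntegral_mono ?_ k2 ?_
  · have : Integrable ((goodT (n := n) τ i j k).indicator (fun _ => A * ‖c‖ ^ 2)) := by
      rw [integrable_indicator_iff hGm]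
      exact integrableOn_const hGb.measure_lt_top.ne
    exact this.integrableOn
  · intro x
    by_cases hx : x ∈ goodT τ i j k
    · rw [indicator_of_mem hx]
      refine (fibre hI hv hv0 hM H hij hik hjk hF c x).trans (le_of_eq ?_)
      rw [← integral_indicator isOpen_ball.measurableSet]
      refine integral_congr_ae (Eventually.of_forall fun p => ?_)
      show (ball (0 : E3 × E3) ρ).indicator (fun p => f1 v i j k F (T3 i j k (UU3 j k x p))
        + δ * f2 i j F c (T3 i j k (UU3 j k x p))) p = h (T3 i j k (UU3 j k x p))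
      by_cases hp : p ∈ ball (0 : E3 × E3) ρ
      · rw [indicator_of_mem hp, hh, indicator_of_mem ((mem_trip hij hik hjk hx p).2 hp)]
      · rw [indicator_of_notMem hp, hh, indicator_of_notMem
          (fun hq => hp ((mem_trip hij hik hjk hx p).1 hq))]
    · rw [indicator_of_notMem hx]
      exact integral_nonneg fun p => hnn _

end Pool.Agent.W152.TWB
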